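import Mathlib

namespace Pool.Agent.Results.MP_870659_co.Lower

open Finset

/-- `Q(L)` for the `k`-level complete binary tree in heap form: vertices `1, …, 2^k - 1`, the
parent of `v ≥ 2` being `v / 2`. -/
def Q (k : ℕ) (L : ℕ → ℕ) : ℤ := ∑ v ∈ Ico 2 (2 ^ k), ((L v : ℤ) - L (v / 2)) ^ 2

lemma half (g : ℕ → ℤ) (a b : ℕ) (h : a ≤ b) :
    ∑ v ∈ Ico (2 * a) (2 * b), g (v / 2) = 2 * ∑ v ∈ Ico a b, g v := by
  induction b, h using Nat.le_induction with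
  | base => simp
  | succ b h ih =>
    rw [show 2 * (b + 1) = 2 * b + 1 + 1 by ring, sum_Ico_succ_top (by omega),
      sum_Ico_succ_top (by omega), ih, sum_Ico_succ_top h,
      show 2 * b / 2 = b by omega, show (2 * b + 1) / 2 = b by omega]
    ring

lemma Q_nonneg (k : ℕ) (L : ℕ → ℕ) : 0 ≤ Q k L := sum_nonneg fun _ _ => sq_nonneg _

lemma Q_succ (i : ℕ) (L : ℕ → ℕ) : Q (i + 2) L = Q (i + 1) L +
    ∑ v ∈ Ico (2 ^ (i + 1)) (2 ^ (i + 2)), ((L v : ℤ) - L (v / 2)) ^ 2 := by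
  unfold Q
  have h1 : 1 ≤ 2 ^ i := Nat.one_le_two_pow
  rw [sum_Ico_consecutive _ (by rw [pow_succ]; omega) (Nat.pow_le_pow_right (by norm_num) (by omega))]

lemma level (L : ℕ → ℕ) (i : ℕ) :
    ∑ v ∈ Ico (2 ^ i) (2 ^ (i + 1)), ((L v : ℤ) - L 1) ^ 2 ≤ (2 ^ i - 1) * Q (i + 1) L := by
  induction i with
  | zero => simp
  | succ i ih =>
    rcases Nat.eq_zero_or_pos i with rfl | hi
    · have e : Ico 2 4 = ({2, 3} : Finset ℕ) := by decide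
      norm_num [Q, e]
    rw [Q_succ]
    set N : ℤ := 2 ^ (i + 1) with hN
    have hN2 : N = 2 * 2 ^ i := by rw [hN]; ring
    have h1 : (2 : ℤ) ≤ 2 ^ i := le_self_pow₀ (by norm_num) hi.ne'
    have hh := half (fun v => ((L v : ℤ) - L 1) ^ 2) (2 ^ i) (2 ^ (i + 1))
      (Nat.pow_le_pow_right (by norm_num) (by omega))
    rw [← pow_succ', ← pow_succ'] at hh
    have hp : (N - 2) * ∑ v ∈ Ico (2 ^ (i + 1)) (2 ^ (i + 1 + 1)), ((L v : ℤ) - L 1) ^ 2 ≤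
        (N - 1) * ∑ v ∈ Ico (2 ^ (i + 1)) (2 ^ (i + 1 + 1)), ((L (v / 2) : ℤ) - L 1) ^ 2 +
        (N - 2) * (N - 1) * ∑ v ∈ Ico (2 ^ (i + 1)) (2 ^ (i + 1 + 1)), ((L v : ℤ) - L (v / 2)) ^ 2 := by
      rw [mul_sum, mul_sum, mul_sum, ← sum_add_distrib]
      refine sum_le_sum fun v _ => ?_
      nlinarith [sq_nonneg (((L (v / 2) : ℤ) - L 1) - (N - 2) * ((L v : ℤ) - L (v / 2)))]
    rw [hh] at hp
    have hD : 0 ≤ ∑ v ∈ Ico (2 ^ (i + 1)) (2 ^ (i + 1 + 1)), ((L v : ℤ) - L (v / 2)) ^ 2 :=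
      sum_nonneg fun _ _ => sq_nonneg _
    have hT := Q_nonneg (i + 1) L
    change _ ≤ (N - 1) * (_ + ∑ v ∈ Ico (2 ^ (i + 1)) (2 ^ (i + 1 + 1)), _)
    generalize ∑ v ∈ Ico (2 ^ (i + 1)) (2 ^ (i + 1 + 1)), ((L v : ℤ) - L (v / 2)) ^ 2 = D at *
    generalize ∑ v ∈ Ico (2 ^ (i + 1)) (2 ^ (i + 1 + 1)), ((L v : ℤ) - L 1) ^ 2 = S at *
    generalize ∑ v ∈ Ico (2 ^ i) (2 ^ (i + 1)), ((L v : ℤ) - L 1) ^ 2 = S0 at *
    generalize Q (i + 1) L = T at *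
    generalize (2 : ℤ) ^ i = M at *
    have hNpos : 0 < N - 2 := by omega
    refine le_of_mul_le_mul_left ?_ hNpos
    have e1 : (N - 1) * (2 * S0) ≤ (N - 1) * (2 * ((M - 1) * T)) :=
      mul_le_mul_of_nonneg_left (by linarith) (by linarith)
    rw [hN2] at hp e1 ⊢
    nlinarith

lemma total (L : ℕ → ℕ) (i : ℕ) :
    ∑ v ∈ Ico 1 (2 ^ (i + 1)), ((L v : ℤ) - L 1) ^ 2 ≤ 2 ^ (i + 1) * Q (i + 1) L := by
  induction i with
  | zero => simp [Q]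
  | succ i ih =>
    rw [← sum_Ico_consecutive _ (Nat.one_le_two_pow (n := i + 1))
      (Nat.pow_le_pow_right (by norm_num) (Nat.le_succ _))]
    have h1 := level L (i + 1)
    have h2 := Q_succ i L
    have hD : 0 ≤ ∑ v ∈ Ico (2 ^ (i + 1)) (2 ^ (i + 2)), ((L v : ℤ) - L (v / 2)) ^ 2 :=
      sum_nonneg fun _ _ => sq_nonneg _
    have hT := Q_nonneg (i + 2) L
    have h3 : (2 : ℤ) ^ (i + 1) * Q (i + 1) L ≤ 2 ^ (i + 1) * Q (i + 2) L :=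
      mul_le_mul_of_nonneg_left (by linarith) (by positivity)
    have h4 : (2 : ℤ) ^ (i + 1 + 1) = 2 * 2 ^ (i + 1) := by ring
    change _ ≤ 2 ^ (i + 1 + 1) * Q (i + 2) L
    change _ ≤ (2 ^ (i + 1) - 1) * Q (i + 2) L at h1
    rw [h4]
    simp only [Nat.succ_eq_add_one]
    nlinarith

lemma sq_sum (r : ℤ) (n : ℕ) : 6 * ∑ t ∈ Ico 1 (n + 1), ((t : ℤ) - r) ^ 2 =
    n * (n + 1) * (2 * n + 1) - 6 * r * n * (n + 1) + 6 * n * r ^ 2 := by
  induction n with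
  | zero => simp
  | succ n ih => rw [sum_Ico_succ_top (by omega), mul_add, ih]; push_cast; ring

lemma lower (k : ℕ) (hk : 1 ≤ k) (L : ℕ → ℕ)
    (hL : Set.BijOn L (Set.Ico 1 (2 ^ k)) (Set.Ico 1 (2 ^ k))) :
    ((2 : ℤ) ^ k - 1) * (2 ^ k - 2) ≤ 12 * Q k L := by
  obtain ⟨i, rfl⟩ : ∃ i, k = i + 1 := ⟨k - 1, by omega⟩
  have h1 := total L i
  have h2 : ∑ v ∈ Ico 1 (2 ^ (i + 1)), ((L v : ℤ) - L 1) ^ 2 =
      ∑ t ∈ Ico 1 (2 ^ (i + 1)), (((t : ℕ) : ℤ) - L 1) ^ 2 := by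
    apply sum_nbij L
    · intro v hv; simpa using hL.mapsTo (by simpa using hv)
    · simpa using hL.injOn
    · simpa using hL.surjOn
    · intro v _; rfl
  obtain ⟨n, hn⟩ : ∃ n, 2 ^ (i + 1) = n + 1 :=
    ⟨2 ^ (i + 1) - 1, by have := Nat.one_le_two_pow (n := i + 1); omega⟩
  have hz : (2 : ℤ) ^ (i + 1) = n + 1 := by exact_mod_cast hn
  rw [h2, hn, hz] at h1
  rw [hz]
  have h3 := sq_sum (L 1) n
  have hn0 : (0 : ℤ) ≤ n := by positivity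
  refine le_of_mul_le_mul_left ?_ (show (0 : ℤ) < n + 1 by omega)
  nlinarith [mul_nonneg hn0 (sq_nonneg (2 * (L 1 : ℤ) - (n + 1)))]

/-- The in-order labeling. -/
def io : ℕ → ℕ → ℕ
  | 0, _ => 0
  | k + 1, v => if v < 2 ^ k then 2 * io k v else 2 * (v - 2 ^ k) + 1

lemma io_succ (k v : ℕ) :
    io (k + 1) v = if v < 2 ^ k then 2 * io k v else 2 * (v - 2 ^ k) + 1 := rfl

lemma io_bij (k : ℕ) : Set.BijOn (io k) (Set.Ico 1 (2 ^ k)) (Set.Ico 1 (2 ^ k)) := by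
  induction k with
  | zero => simp
  | succ k ih =>
    have hp : 2 ^ (k + 1) = 2 * 2 ^ k := by ring
    refine ⟨fun v hv => ?_, fun v hv w hw h => ?_, fun t ht => ?_⟩
    · obtain ⟨h1, h2⟩ := hv
      by_cases h : v < 2 ^ k
      · have := ih.mapsTo ⟨h1, h⟩
        simp only [io, if_pos h, Set.mem_Ico] at this ⊢; omega
      · simp only [io, if_neg h, Set.mem_Ico]; omega
    · by_cases a : v < 2 ^ k <;> by_cases b : w < 2 ^ k <;>
        simp only [io, a, b, if_true, if_false] at h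
      · exact ih.injOn ⟨hv.1, a⟩ ⟨hw.1, b⟩ (by omega)
      · omega
      · omega
      · omega
    · obtain ⟨h1, h2⟩ := ht
      rcases Nat.even_or_odd' t with ⟨u, rfl | rfl⟩
      · obtain ⟨v, hv, he⟩ := ih.surjOn (show u ∈ Set.Ico 1 (2 ^ k) from ⟨by omega, by omega⟩)
        exact ⟨v, ⟨hv.1, by have := hv.2; omega⟩, by simp only [io, if_pos hv.2, he]⟩
      · have h0 : 1 ≤ 2 ^ k := Nat.one_le_two_pow
        refine ⟨2 ^ k + u, ⟨by omega, by omega⟩, ?_⟩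
        simp only [io, if_neg (show ¬ 2 ^ k + u < 2 ^ k by omega)]; omega

lemma io_Q (i : ℕ) : 4 * Q (i + 1) (io (i + 1)) = 2 ^ (i + 1) * (2 ^ (i + 1) - 2) := by
  induction i with
  | zero => simp [Q]
  | succ i ih =>
    rw [Q_succ]
    have hp : 2 ^ (i + 1) = 2 * 2 ^ i := by ring
    have hq : 2 ^ (i + 2) = 2 * 2 ^ (i + 1) := by ring
    have h1 : Q (i + 1) (io (i + 1 + 1)) = 4 * Q (i + 1) (io (i + 1)) := by
      unfold Q; rw [mul_sum]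
      refine sum_congr rfl fun v hv => ?_
      have a : v < 2 ^ (i + 1) := (mem_Ico.1 hv).2
      have b : v / 2 < 2 ^ (i + 1) := by omega
      rw [io_succ (i + 1) v, io_succ (i + 1) (v / 2), if_pos a, if_pos b]; push_cast; ring
    have h2 : ∑ v ∈ Ico (2 ^ (i + 1)) (2 ^ (i + 2)),
        ((io (i + 1 + 1) v : ℤ) - io (i + 1 + 1) (v / 2)) ^ 2 = 2 ^ (i + 1) := by
      rw [sum_congr rfl (g := fun _ => (1 : ℤ))]
      · rw [sum_const, Nat.card_Ico, hq, show 2 * 2 ^ (i + 1) - 2 ^ (i + 1) = 2 ^ (i + 1) by omega]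
        simp
      · intro v hv
        obtain ⟨a, b⟩ := mem_Ico.1 hv
        rw [io_succ (i + 1) v, io_succ (i + 1) (v / 2), if_neg (by omega), if_pos (by omega),
          io_succ i (v / 2), if_neg (by omega)]
        rw [sq_eq_one_iff]; omega
    rw [h1, h2, mul_add, ih]; ring

/-- `(2^k - 1)(2^k - 2)/12 ≤ Q_k`. -/
theorem result (k : ℕ) (hk : 1 ≤ k) (L : ℕ → ℕ)
    (hL : Set.BijOn L (Set.Ico 1 (2 ^ k)) (Set.Ico 1 (2 ^ k))) :
    ((2 : ℤ) ^ k - 1) * (2 ^ k - 2) ≤ 12 * Q k L := lower k hk L hL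

end Pool.Agent.Results.MP_870659_co.Lower
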